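import Pool.Agent.Lib.SubspaceH13.Stmt

/-!
# The Subspace theorem follows from its sequential version with the coordinate forms at `∞`
-/

namespace Pool.Agent.Lib.SubspaceH15

open Finset

/-- Sequential version of the Subspace theorem, the forms at the infinite place being the
coordinates. -/
def SeqStmt : Prop :=
  ∀ (N : ℕ), 2 ≤ N → ∀ (A2 A3 : Matrix (Fin N) (Fin N) ℤ), A2.det ≠ 0 → A3.det ≠ 0 →
    ∀ ε : ℝ, 0 < ε → ∀ (X : ℕ → Fin N → ℤ) (e f : ℕ → Fin N → ℕ) (Q : ℕ → ℝ),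
      Filter.Tendsto Q Filter.atTop Filter.atTop →
      (∀ s k, X s k ≠ 0) →
      (∀ s k, (A2.mulVec (X s)) k ≠ 0) →
      (∀ s k, (A3.mulVec (X s)) k ≠ 0) →
      (∀ s k, (2 : ℤ) ^ (e s k) ∣ (A2.mulVec (X s)) k) →
      (∀ s k, (3 : ℤ) ^ (f s k) ∣ (A3.mulVec (X s)) k) →
      (∀ s k, |(X s k : ℝ)| ≤ Q s) →
      (∀ s, (∏ k, |(X s k : ℝ)|) * Q s ^ ε ≤ 2 ^ (∑ k, e s k) * 3 ^ (∑ k, f s k)) →
      ∃ h : Fin N → ℤ, h ≠ 0 ∧ ∃ᶠ s in Filter.atTop, ∑ k, h k * X s k = 0

/-- an integer vector of length at least two is orthogonal to a nonzero integer vector -/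
theorem exists_ne_zero_orthogonal {N : ℕ} (hN : 2 ≤ N) (Y : Fin N → ℤ) :
    ∃ h : Fin N → ℤ, h ≠ 0 ∧ ∑ k, h k * Y k = 0 := by
  classical
  let i : Fin N := ⟨0, by omega⟩
  let j : Fin N := ⟨1, by omega⟩
  have hij : i ≠ j := by simp [i, j, Fin.ext_iff]
  by_cases h0 : Y j = 0
  · refine ⟨Pi.single j 1, ?_, ?_⟩
    · intro h
      have := congrFun h j
      simp at this
    · rw [Finset.sum_eq_single j]
      · simp [h0]
      · intro b _ hb
        simp [Pi.single_eq_of_ne hb]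
      · simp
  · refine ⟨Pi.single i (Y j) - Pi.single j (Y i), ?_, ?_⟩
    · intro h
      have := congrFun h i
      simp [Pi.single_eq_of_ne hij] at this
      exact h0 this
    · simp only [Pi.sub_apply, sub_mul, Finset.sum_sub_distrib]
      rw [Finset.sum_eq_single i, Finset.sum_eq_single j]
      · simp [mul_comm]
      · intro b _ hb
        simp [Pi.single_eq_of_ne hb]
      · simp
      · intro b _ hb
        simp [Pi.single_eq_of_ne hb]
      · simp

theorem row_ne_zero {N : ℕ} {A : Matrix (Fin N) (Fin N) ℤ} (hA : A.det ≠ 0) (k : Fin N) :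
    A k ≠ 0 := by
  intro h
  exact hA (Matrix.det_eq_zero_of_row_eq_zero k (fun j => congrFun h j))

theorem SubspaceStmt_of_seq (H : SeqStmt) : SubspaceH13.SubspaceStmt := by
  classical
  intro N hN LR L2 L3 hR h2 h3 ε hε
  by_contra hcon
  push Not at hcon
  have : Nonempty {h : Fin N → ℤ // h ≠ 0} := by
    obtain ⟨h, hh, -⟩ := exists_ne_zero_orthogonal hN 0
    exact ⟨⟨h, hh⟩⟩
  obtain ⟨g, hg⟩ := exists_surjective_nat {h : Fin N → ℤ // h ≠ 0}
  let F : ℕ → Finset (Fin N → ℤ) := fun m =>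
    (((Finset.range m).image fun i => (g i : Fin N → ℤ)) ∪ (Finset.univ.image fun k => LR k)) ∪
      ((Finset.univ.image fun k => L2 k) ∪ (Finset.univ.image fun k => L3 k))
  have hF : ∀ m, ∀ h ∈ F m, h ≠ 0 := by
    intro m h hh
    simp only [F, Finset.mem_union, Finset.mem_image, Finset.mem_range, Finset.mem_univ,
      true_and] at hh
    rcases hh with (⟨i, -, rfl⟩ | ⟨k, rfl⟩) | (⟨k, rfl⟩ | ⟨k, rfl⟩)
    · exact (g i).2
    · exact row_ne_zero hR k
    · exact row_ne_zero h2 k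
    · exact row_ne_zero h3 k
  have hex : ∀ m, ∃ (X : Fin N → ℤ) (e f : Fin N → ℕ), X ≠ 0 ∧
      (∀ k, (2 : ℤ) ^ e k ∣ (L2.mulVec X) k) ∧ (∀ k, (3 : ℤ) ^ f k ∣ (L3.mulVec X) k) ∧
      ∃ Q : ℝ, (∀ k, |(X k : ℝ)| ≤ Q) ∧
      (∏ k, |((LR.mulVec X) k : ℝ)|) * Q ^ ε ≤ 2 ^ (∑ k, e k) * 3 ^ (∑ k, f k) ∧
      ∀ h ∈ F m, ∑ k, h k * X k ≠ 0 := fun m => hcon (F m) (hF m)
  choose X e f hX0 hXe hXf Q hQ hprod hne using hex
  -- nothing in the enumeration is eventually orthogonal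
  have hgne : ∀ i m, i < m → ∑ k, (g i : Fin N → ℤ) k * X m k ≠ 0 := by
    intro i m him
    apply hne m
    simp only [F, Finset.mem_union, Finset.mem_image, Finset.mem_range]
    exact Or.inl (Or.inl ⟨i, him, rfl⟩)
  have hrow : ∀ m k, (LR.mulVec (X m)) k ≠ 0 := by
    intro m k
    apply hne m (LR k)
    simp only [F, Finset.mem_union, Finset.mem_image, Finset.mem_univ, true_and]
    exact Or.inl (Or.inr ⟨k, rfl⟩)
  have hrow2 : ∀ m k, (L2.mulVec (X m)) k ≠ 0 := by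
    intro m k
    apply hne m (L2 k)
    simp only [F, Finset.mem_union, Finset.mem_image, Finset.mem_univ, true_and]
    exact Or.inr (Or.inl ⟨k, rfl⟩)
  have hrow3 : ∀ m k, (L3.mulVec (X m)) k ≠ 0 := by
    intro m k
    apply hne m (L3 k)
    simp only [F, Finset.mem_union, Finset.mem_image, Finset.mem_univ, true_and]
    exact Or.inr (Or.inr ⟨k, rfl⟩)
  -- `Q` tends to infinity
  have hQt : Filter.Tendsto Q Filter.atTop Filter.atTop := by
    rw [Filter.tendsto_atTop]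
    intro M
    let S : Finset (Fin N → ℤ) := Fintype.piFinset fun _ => Finset.Icc (-⌈M⌉) ⌈M⌉
    have hi : ∀ Y : Fin N → ℤ, ∃ i, ∑ k, (g i : Fin N → ℤ) k * Y k = 0 := by
      intro Y
      obtain ⟨h, hh, hs⟩ := exists_ne_zero_orthogonal hN Y
      obtain ⟨i, hi⟩ := hg ⟨h, hh⟩
      exact ⟨i, by rw [hi]; exact hs⟩
    choose ι hι using hi
    filter_upwards [Filter.eventually_gt_atTop (S.sup ι)] with m hm
    by_contra hlt
    push Not at hlt
    have hmem : X m ∈ S := by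
      simp only [S, Fintype.mem_piFinset, Finset.mem_Icc]
      intro k
      have h1 : |(X m k : ℝ)| ≤ ⌈M⌉ := (hQ m k).trans (hlt.le.trans (Int.le_ceil M))
      rw [abs_le] at h1
      constructor
      · exact_mod_cast h1.1
      · exact_mod_cast h1.2
    exact hgne (ι (X m)) m (lt_of_le_of_lt (Finset.le_sup hmem) hm) (hι (X m))
  -- constants
  set C : ℝ := (∑ k, ∑ j, |(LR k j : ℝ)|) + 1 with hC
  have hC1 : 1 ≤ C := by
    have : 0 ≤ ∑ k, ∑ j, |(LR k j : ℝ)| :=
      Finset.sum_nonneg fun _ _ => Finset.sum_nonneg fun _ _ => abs_nonneg _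
    linarith
  obtain ⟨s0, hs0⟩ := Filter.eventually_atTop.1 (hQt.eventually_ge_atTop C)
  have hbound : ∀ m k, |((LR.mulVec (X m)) k : ℝ)| ≤ C * Q m := by
    intro m k
    have hQ0 : 0 ≤ Q m := (abs_nonneg _).trans (hQ m k)
    have h1 : ((LR.mulVec (X m) k : ℤ) : ℝ) = ∑ j, (LR k j : ℝ) * (X m j : ℝ) := by
      simp [Matrix.mulVec, dotProduct]
    rw [h1]
    calc |∑ j, (LR k j : ℝ) * (X m j : ℝ)| ≤ ∑ j, |(LR k j : ℝ) * (X m j : ℝ)| :=
          Finset.abs_sum_le_sum_abs _ _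
      _ ≤ ∑ j, |(LR k j : ℝ)| * Q m := by
          refine Finset.sum_le_sum fun j _ => ?_
          rw [abs_mul]
          exact mul_le_mul_of_nonneg_left (hQ m j) (abs_nonneg _)
      _ = (∑ j, |(LR k j : ℝ)|) * Q m := by rw [Finset.sum_mul]
      _ ≤ C * Q m := by
          refine mul_le_mul_of_nonneg_right ?_ hQ0
          have h2 : (∑ j, |(LR k j : ℝ)|) ≤ ∑ k, ∑ j, |(LR k j : ℝ)| :=
            Finset.single_le_sum (f := fun k => ∑ j, |(LR k j : ℝ)|)
              (fun _ _ => Finset.sum_nonneg fun _ _ => abs_nonneg _) (Finset.mem_univ k)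
          linarith
  have hadj : ∀ (L : Matrix (Fin N) (Fin N) ℤ) (Y : Fin N → ℤ) (k : Fin N),
      ((L * LR.adjugate).mulVec (LR.mulVec Y)) k = LR.det * (L.mulVec Y) k := by
    intro L Y k
    rw [Matrix.mulVec_mulVec, Matrix.mul_assoc, Matrix.adjugate_mul, Matrix.mul_smul,
      Matrix.mul_one, Matrix.smul_mulVec]
    simp
  have hdet : ∀ L : Matrix (Fin N) (Fin N) ℤ, L.det ≠ 0 → (L * LR.adjugate).det ≠ 0 := by
    intro L hL
    rw [Matrix.det_mul, Matrix.det_adjugate]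
    exact mul_ne_zero hL (pow_ne_zero _ hR)
  obtain ⟨h', hh', hfreq⟩ := H N hN (L2 * LR.adjugate) (L3 * LR.adjugate) (hdet L2 h2) (hdet L3 h3)
    (ε / 2) (by positivity) (fun s => LR.mulVec (X (s + s0))) (fun s => e (s + s0))
    (fun s => f (s + s0)) (fun s => C * Q (s + s0))
    ((Filter.tendsto_add_atTop_iff_nat (f := fun s => C * Q s) s0).2
      (hQt.const_mul_atTop (by linarith)))
    (fun s k => hrow _ k)
    (fun s k => by rw [hadj]; exact mul_ne_zero hR (hrow2 _ k))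
    (fun s k => by rw [hadj]; exact mul_ne_zero hR (hrow3 _ k))
    (fun s k => by rw [hadj]; exact (hXe _ k).mul_left _)
    (fun s k => by rw [hadj]; exact (hXf _ k).mul_left _)
    (fun s k => hbound _ k)
    (fun s => by
      refine le_trans ?_ (hprod (s + s0))
      refine mul_le_mul_of_nonneg_left ?_ (Finset.prod_nonneg fun _ _ => abs_nonneg _)
      have hCQ : C ≤ Q (s + s0) := hs0 _ (by omega)
      have hQ0 : 0 ≤ Q (s + s0) := by linarith
      calc (C * Q (s + s0)) ^ (ε / 2) ≤ (Q (s + s0) * Q (s + s0)) ^ (ε / 2) :=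
            Real.rpow_le_rpow (by positivity) (mul_le_mul_of_nonneg_right hCQ hQ0) (by positivity)
        _ = Q (s + s0) ^ ε := by
            rw [← sq, ← Real.rpow_natCast, ← Real.rpow_mul hQ0]
            congr 1
            push_cast
            ring)
  -- conclusion
  have hne0 : Matrix.vecMul h' LR ≠ 0 := fun h0 => hh' (Matrix.eq_zero_of_vecMul_eq_zero hR h0)
  obtain ⟨i, hi⟩ := hg ⟨Matrix.vecMul h' LR, hne0⟩
  obtain ⟨s, hs, hsi⟩ := (hfreq.and_eventually (Filter.eventually_gt_atTop i)).exists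
  refine hgne i (s + s0) (by omega) ?_
  rw [hi]
  have h1 := Matrix.dotProduct_mulVec h' LR (X (s + s0))
  simp only [dotProduct] at h1
  rw [← h1]
  exact hs

end Pool.Agent.Lib.SubspaceH15
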