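import Mathlib

/-!
# Lattices defined by divisibility conditions for integer linear forms
-/

namespace Pool.Agent.Lib.SubspaceH15

open Finset Module

variable {N : ℕ}

/-- the lattice of all integer points `Y` such that `2 ^ e k` divides the `k`-th form of `A2` and
`3 ^ f k` divides the `k`-th form of `A3` at `Y`, for every `k`. -/
def lat (A2 A3 : Matrix (Fin N) (Fin N) ℤ) (e f : Fin N → ℕ) : AddSubgroup (Fin N → ℤ) where
  carrier := {Y | (∀ k, (2 : ℤ) ^ (e k) ∣ (A2.mulVec Y) k) ∧ ∀ k, (3 : ℤ) ^ (f k) ∣ (A3.mulVec Y) k}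
  zero_mem' := by
    constructor <;> intro k <;> simp [Matrix.mulVec_zero]
  add_mem' := by
    rintro a b ⟨ha, ha'⟩ ⟨hb, hb'⟩
    constructor <;> intro k <;> rw [Matrix.mulVec_add, Pi.add_apply]
    · exact dvd_add (ha k) (hb k)
    · exact dvd_add (ha' k) (hb' k)
  neg_mem' := by
    rintro a ⟨ha, ha'⟩
    constructor <;> intro k <;> rw [Matrix.mulVec_neg, Pi.neg_apply]
    · exact (dvd_neg).2 (ha k)
    · exact (dvd_neg).2 (ha' k)

theorem mem_lat {A2 A3 : Matrix (Fin N) (Fin N) ℤ} {e f : Fin N → ℕ} {Y : Fin N → ℤ} :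
    Y ∈ lat A2 A3 e f ↔
      (∀ k, (2 : ℤ) ^ (e k) ∣ (A2.mulVec Y) k) ∧ ∀ k, (3 : ℤ) ^ (f k) ∣ (A3.mulVec Y) k :=
  Iff.rfl

/-- reduction of the values of the forms -/
def redHom (A2 A3 : Matrix (Fin N) (Fin N) ℤ) (e f : Fin N → ℕ) :
    (Fin N → ℤ) →+ ((∀ k : Fin N, ZMod (2 ^ e k)) × (∀ k : Fin N, ZMod (3 ^ f k))) where
  toFun Y := (fun k => ((A2.mulVec Y k : ℤ) : ZMod (2 ^ e k)),
    fun k => ((A3.mulVec Y k : ℤ) : ZMod (3 ^ f k)))
  map_zero' := by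
    ext k <;> simp [Matrix.mulVec_zero]
  map_add' a b := by
    ext k <;> simp [Matrix.mulVec_add]

theorem ker_redHom (A2 A3 : Matrix (Fin N) (Fin N) ℤ) (e f : Fin N → ℕ) :
    (redHom A2 A3 e f).ker = lat A2 A3 e f := by
  ext Y
  rw [AddMonoidHom.mem_ker, mem_lat]
  simp only [redHom, AddMonoidHom.coe_mk, ZeroHom.coe_mk, Prod.mk_eq_zero, funext_iff,
    Pi.zero_apply, ZMod.intCast_zmod_eq_zero_iff_dvd, Nat.cast_pow, Nat.cast_ofNat]

theorem lat_index_ne_zero (A2 A3 : Matrix (Fin N) (Fin N) ℤ) (e f : Fin N → ℕ) :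
    (lat A2 A3 e f).index ≠ 0 := by
  haveI : ∀ k, NeZero (2 ^ e k) := fun k => ⟨pow_ne_zero _ (by norm_num)⟩
  haveI : ∀ k, NeZero (3 ^ f k) := fun k => ⟨pow_ne_zero _ (by norm_num)⟩
  rw [← ker_redHom, AddSubgroup.index_ker]
  exact Nat.card_pos.ne'

theorem lat_index_le (A2 A3 : Matrix (Fin N) (Fin N) ℤ) (e f : Fin N → ℕ) :
    (lat A2 A3 e f).index ≤ 2 ^ (∑ k, e k) * 3 ^ (∑ k, f k) := by
  haveI : ∀ k, NeZero (2 ^ e k) := fun k => ⟨pow_ne_zero _ (by norm_num)⟩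
  haveI : ∀ k, NeZero (3 ^ f k) := fun k => ⟨pow_ne_zero _ (by norm_num)⟩
  rw [← ker_redHom, AddSubgroup.index_ker]
  refine (Nat.card_le_card_of_injective _ Subtype.val_injective).trans ?_
  rw [Nat.card_prod, Nat.card_pi, Nat.card_pi]
  simp only [Nat.card_zmod]
  rw [prod_pow_eq_pow_sum, prod_pow_eq_pow_sum]

theorem pow_sum_dvd_det {A : Matrix (Fin N) (Fin N) ℤ} {q : ℤ} {e : Fin N → ℕ}
    (B : Matrix (Fin N) (Fin N) ℤ) (h : ∀ k j, q ^ e k ∣ (A * B) k j) :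
    q ^ (∑ k, e k) ∣ A.det * B.det := by
  rw [← Matrix.det_mul]
  choose c hc using h
  have h1 : A * B = Matrix.of (fun k j => q ^ e k * (Matrix.of c) k j) := by
    ext k j
    simp only [Matrix.of_apply]
    exact hc k j
  rw [h1, Matrix.det_mul_column, prod_pow_eq_pow_sum]
  exact Dvd.intro _ rfl

theorem le_lat_index {A2 A3 : Matrix (Fin N) (Fin N) ℤ} (h2 : A2.det ≠ 0) (h3 : A3.det ≠ 0)
    (e f : Fin N → ℕ) :
    2 ^ (∑ k, e k) * 3 ^ (∑ k, f k) ≤ (A2.det * A3.det).natAbs * (lat A2 A3 e f).index := by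
  classical
  haveI : (lat A2 A3 e f).FiniteIndex := ⟨lat_index_ne_zero A2 A3 e f⟩
  have hr : finrank ℤ (lat A2 A3 e f) = N := by
    rw [AddSubgroup.finrank_eq_of_finiteIndex]
    simp
  haveI : Module.Free ℤ (lat A2 A3 e f) :=
    inferInstanceAs (Module.Free ℤ (AddSubgroup.toIntSubmodule (lat A2 A3 e f)))
  haveI : Module.Finite ℤ (lat A2 A3 e f) :=
    inferInstanceAs (Module.Finite ℤ (AddSubgroup.toIntSubmodule (lat A2 A3 e f)))
  let b : Basis (Fin N) ℤ (lat A2 A3 e f) := finBasisOfFinrankEq ℤ _ hr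
  have hidx := AddSubgroup.index_eq_natAbs_det (Pi.basisFun ℤ (Fin N)) (lat A2 A3 e f) b
  set B : Matrix (Fin N) (Fin N) ℤ := Matrix.of (fun k j => ((b j : lat A2 A3 e f) : Fin N → ℤ) k)
    with hB
  have hdet : (Pi.basisFun ℤ (Fin N)).det (fun j => ((b j : lat A2 A3 e f) : Fin N → ℤ)) = B.det := by
    rw [Basis.det_apply]
    congr 1
  rw [hdet] at hidx
  have hd2 : (2 : ℤ) ^ (∑ k, e k) ∣ A2.det * B.det := by
    apply pow_sum_dvd_det
    intro k j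
    have := (mem_lat.1 (b j).2).1 k
    simpa [Matrix.mul_apply, Matrix.mulVec, dotProduct, hB] using this
  have hd3 : (3 : ℤ) ^ (∑ k, f k) ∣ A3.det * B.det := by
    apply pow_sum_dvd_det
    intro k j
    have := (mem_lat.1 (b j).2).2 k
    simpa [Matrix.mul_apply, Matrix.mulVec, dotProduct, hB] using this
  have hcop : IsCoprime ((2 : ℤ) ^ (∑ k, e k)) ((3 : ℤ) ^ (∑ k, f k)) := by
    apply IsCoprime.pow
    norm_num
  have hprod : (2 : ℤ) ^ (∑ k, e k) * 3 ^ (∑ k, f k) ∣ A2.det * A3.det * B.det := by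
    apply hcop.mul_dvd
    · exact hd2.trans ⟨A3.det, by ring⟩
    · exact hd3.trans ⟨A2.det, by ring⟩
  have hB0 : B.det ≠ 0 := by
    intro h0
    rw [h0] at hidx
    exact lat_index_ne_zero A2 A3 e f (by simpa using hidx)
  have hne : A2.det * A3.det * B.det ≠ 0 := mul_ne_zero (mul_ne_zero h2 h3) hB0
  have hle := Nat.le_of_dvd (Int.natAbs_pos.2 hne) (Int.natAbs_dvd_natAbs.2 hprod)
  rw [Int.natAbs_mul (A2.det * A3.det), ← hidx] at hle
  refine le_trans (le_of_eq ?_) hle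
  simp [Int.natAbs_mul, Int.natAbs_pow]

end Pool.Agent.Lib.SubspaceH15
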